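import Mathlib
import Pool.Agent.KS6_5.Arc.Retract
import Pool.Graph.R_seed8.Results.MP_4545a8_an.NoCommonPeriodicPoint

set_option autoImplicit false

namespace Pool.Agent.Results.MP_4545a8_an.SpacesContainingArcs

universe u

open Topology

/-- The periodic points of `f`: `f^n x = x` for some `n ≥ 1`. -/
def Per {X : Type u} (f : X → X) : Set X := {x | ∃ n : ℕ, 1 ≤ n ∧ f^[n] x = x}

theorem result (Y : Type u) [TopologicalSpace Y] [T35Space Y] (e : unitInterval → Y)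
    (he : IsEmbedding e) :
    ∃ F G : Y → Y, Continuous F ∧ Continuous G ∧ F ∘ G = G ∘ F ∧
      Set.range F ⊆ Set.range e ∧ Set.range G ⊆ Set.range e ∧
      (∃ x, F x = x) ∧ (∃ x, G x = x) ∧ Per F ∩ Per G = ∅ := by
  obtain ⟨f, g, hf, hg, hfg, hne⟩ :=
    Pool.Agent.Results.MP_4545a8_an.NoCommonPeriodicPoint.result.1
  obtain ⟨F, G, hF, hG, hFG, hFe, hGe, h1, h2, h3⟩ := Pool.Agent.KS6_5.Arc.commuting e he f g hf hg hfg (by
    intro x m n hm hn h1 h2
    have : x ∈ Pool.Agent.Results.MP_4545a8_an.NoCommonPeriodicPoint.Per f ∩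
        Pool.Agent.Results.MP_4545a8_an.NoCommonPeriodicPoint.Per g := ⟨⟨m, hm, h1⟩, ⟨n, hn, h2⟩⟩
    rw [hne] at this
    exact this)
  have hfix : ∀ (a : unitInterval → unitInterval) (A : Y → Y), Continuous a →
      (∀ t, A (e t) = e (a t)) → ∃ x, A x = x := by
    intro a A ha hA
    obtain ⟨t, ht⟩ := Pool.Agent.KS6_5.Arc.exists_fixed a ha
    exact ⟨e t, by rw [hA, ht]⟩
  refine ⟨F, G, hF, hG, hFG, ?_, ?_, hfix f F hf hFe, hfix g G hg hGe, ?_⟩
  · rintro _ ⟨y, rfl⟩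
    exact h1 y
  · rintro _ ⟨y, rfl⟩
    exact h2 y
  · rw [Set.eq_empty_iff_forall_notMem]
    rintro y ⟨⟨m, hm, hy1⟩, ⟨n, hn, hy2⟩⟩
    exact h3 y m n hm hn hy1 hy2

end Pool.Agent.Results.MP_4545a8_an.SpacesContainingArcs
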